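import Mathlib

set_option autoImplicit false

/-! The principal value integral of the Beurling kernel on functions of one real variable. -/

namespace Pool.Agent.H751R3.Beu

open MeasureTheory Filter Topology Set Complex

/-- the kernel `1 / (a + i t)²` -/
noncomputable def ker (a t : ℝ) : ℂ := 1 / ((a : ℂ) + t * I) ^ 2

theorem norm_sq_lin (a t : ℝ) : ‖(a : ℂ) + t * I‖ ^ 2 = a ^ 2 + t ^ 2 := by
  rw [← Complex.normSq_eq_norm_sq, Complex.normSq_add_mul_I]

theorem norm_ker (a t : ℝ) : ‖ker a t‖ = 1 / (a ^ 2 + t ^ 2) := by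
  unfold ker
  rw [norm_div, norm_one, norm_pow, norm_sq_lin]

theorem lin_ne {a t : ℝ} (h : 0 < a ^ 2 + t ^ 2) : (a : ℂ) + t * I ≠ 0 := by
  rw [← norm_pos_iff]
  rw [← norm_sq_lin] at h
  by_contra h2
  have : ‖(a : ℂ) + t * I‖ = 0 := le_antisymm (not_lt.1 h2) (norm_nonneg _)
  rw [this] at h
  norm_num at h

theorem norm_ker_le {a t c : ℝ} (hc : 0 < c) (h : c ≤ a ^ 2 + t ^ 2) :
    ‖ker a t‖ ≤ (1 + 1 / c) * (1 + t ^ 2)⁻¹ := by
  rw [norm_ker, ← div_eq_mul_inv, div_le_div_iff₀ (by linarith) (by positivity)]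
  have h1 : (1 + 1 / c) * (a ^ 2 + t ^ 2) = (a ^ 2 + t ^ 2) + (a ^ 2 + t ^ 2) / c := by
    field_simp
  rw [h1]
  have h2 : 1 ≤ (a ^ 2 + t ^ 2) / c := by rw [le_div_iff₀ hc]; linarith
  nlinarith [sq_nonneg a]

theorem hasDerivAt_prim {a t : ℝ} (h : 0 < a ^ 2 + t ^ 2) :
    HasDerivAt (fun t : ℝ => I / ((a : ℂ) + t * I)) (ker a t) t := by
  have hne := lin_ne h
  have h1 : HasDerivAt (fun t : ℝ => (a : ℂ) + t * I) I t := by
    have := (Complex.ofRealCLM.hasDerivAt (x := t)).mul_const I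
    simp only [Complex.ofRealCLM_apply, Complex.ofReal_one, one_mul] at this
    exact this.const_add _
  have h2 := (h1.inv hne).const_mul I
  refine h2.congr_deriv ?_
  unfold ker
  field_simp
  rw [I_sq]; ring

theorem abs_le_norm_lin (a t : ℝ) : |t| ≤ ‖(a : ℂ) + t * I‖ := by
  have h := norm_sq_lin a t
  have h2 : |t| ^ 2 ≤ ‖(a : ℂ) + t * I‖ ^ 2 := by rw [h, sq_abs]; nlinarith [sq_nonneg a]
  exact (pow_le_pow_iff_left₀ (abs_nonneg _) (norm_nonneg _) two_ne_zero).1 h2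

theorem tendsto_prim (a : ℝ) {l : Filter ℝ} (h : Tendsto (fun t : ℝ => |t|) l atTop) :
    Tendsto (fun t : ℝ => I / ((a : ℂ) + t * I)) l (𝓝 0) := by
  rw [tendsto_zero_iff_norm_tendsto_zero]
  have h1 : ∀ᶠ t : ℝ in l, ‖I / ((a : ℂ) + t * I)‖ ≤ |t|⁻¹ := by
    filter_upwards [h.eventually_gt_atTop 0] with t ht
    rw [norm_div, Complex.norm_I, ← one_div]
    exact one_div_le_one_div_of_le ht (abs_le_norm_lin a t)
  exact squeeze_zero' (Eventually.of_forall fun t => norm_nonneg _) h1 h.inv_tendsto_atTop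

theorem continuous_lin (a : ℝ) : Continuous fun t : ℝ => (a : ℂ) + t * I := by fun_prop

theorem measurable_ker (a : ℝ) : Measurable (ker a) := by
  unfold ker
  exact measurable_const.div ((continuous_lin a).measurable.pow_const 2)

theorem integrableOn_ker {a c : ℝ} (hc : 0 < c) {S : Set ℝ} (hS : MeasurableSet S)
    (h : ∀ t ∈ S, c ≤ a ^ 2 + t ^ 2) : IntegrableOn (ker a) S := by
  have h1 : IntegrableOn (fun t : ℝ => (1 + 1 / c) * (1 + t ^ 2)⁻¹) S :=
    (integrable_inv_one_add_sq.const_mul _).integrableOn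
  refine Integrable.mono' h1 (measurable_ker a).aestronglyMeasurable ?_
  rw [ae_restrict_iff' hS]
  exact Eventually.of_forall fun t ht => norm_ker_le hc (h t ht)

theorem integral_ker_full {a : ℝ} (ha : a ≠ 0) : ∫ t, ker a t = 0 := by
  have hpos : ∀ t : ℝ, 0 < a ^ 2 + t ^ 2 := fun t => by positivity
  have hint : Integrable (ker a) := by
    rw [← integrableOn_univ]
    exact integrableOn_ker (c := a ^ 2) (by positivity) MeasurableSet.univ
      fun t _ => by nlinarith [sq_nonneg t]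
  have := integral_of_hasDerivAt_of_tendsto (fun t => hasDerivAt_prim (hpos t)) hint
    (tendsto_prim a tendsto_abs_atBot_atTop) (tendsto_prim a tendsto_abs_atTop_atTop)
  rw [this, sub_zero]

theorem integral_ker_Ioi {a l : ℝ} (hl : 0 < l) :
    ∫ t in Ioi l, ker a t = - (I / ((a : ℂ) + l * I)) := by
  have hpos : ∀ t ∈ Ici l, 0 < a ^ 2 + t ^ 2 := fun t ht => by
    have : 0 < t := lt_of_lt_of_le hl ht
    positivity
  have hint : IntegrableOn (ker a) (Ioi l) := integrableOn_ker (c := l ^ 2) (by positivity)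
    measurableSet_Ioi fun t ht => by
      have : l < t := ht
      nlinarith [sq_nonneg a]
  have := integral_Ioi_of_hasDerivAt_of_tendsto' (fun t ht => hasDerivAt_prim (hpos t ht)) hint
    (tendsto_prim a tendsto_abs_atTop_atTop)
  rw [this, zero_sub]

theorem integral_ker_Iic {a l : ℝ} (hl : 0 < l) :
    ∫ t in Iic (-l), ker a t = I / ((a : ℂ) + (-l : ℝ) * I) := by
  have hpos : ∀ t ∈ Iic (-l), 0 < a ^ 2 + t ^ 2 := fun t ht => by
    have : t ≤ -l := ht
    have : 0 < t ^ 2 := by nlinarith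
    positivity
  have hint : IntegrableOn (ker a) (Iic (-l)) := integrableOn_ker (c := l ^ 2) (by positivity)
    measurableSet_Iic fun t ht => by
      have : t ≤ -l := ht
      nlinarith [sq_nonneg a]
  have := integral_Iic_of_hasDerivAt_of_tendsto' (fun t ht => hasDerivAt_prim (hpos t ht)) hint
    (tendsto_prim a tendsto_abs_atBot_atTop)
  rw [this, sub_zero]

/-- the inner integral -/
noncomputable def KI (ε a : ℝ) : ℂ := ∫ t in {t : ℝ | ε < ‖(a : ℂ) + t * I‖}, ker a t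

theorem lt_norm_iff {ε a t : ℝ} (hε : 0 < ε) :
    ε < ‖(a : ℂ) + t * I‖ ↔ ε ^ 2 < a ^ 2 + t ^ 2 := by
  rw [← norm_sq_lin, pow_lt_pow_iff_left₀ hε.le (norm_nonneg _) two_ne_zero]

theorem KI_out {ε a : ℝ} (hε : 0 < ε) (h : ε < |a|) : KI ε a = 0 := by
  unfold KI
  have h1 : {t : ℝ | ε < ‖(a : ℂ) + t * I‖} = univ := by
    ext t
    simp only [mem_ofPred_eq, mem_univ, iff_true]
    rw [lt_norm_iff hε]
    have : ε ^ 2 < |a| ^ 2 := pow_lt_pow_left₀ h hε.le two_ne_zero
    rw [sq_abs] at this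
    nlinarith [sq_nonneg t]
  rw [h1, setIntegral_univ]
  exact integral_ker_full (abs_pos.1 (hε.trans h))

theorem KI_in {ε a : ℝ} (hε : 0 < ε) (h : |a| < ε) :
    KI ε a = ((-(2 / ε ^ 2) * Real.sqrt (ε ^ 2 - a ^ 2) : ℝ) : ℂ) := by
  unfold KI
  set l := Real.sqrt (ε ^ 2 - a ^ 2) with hl
  have h0 : 0 < ε ^ 2 - a ^ 2 := by
    have : |a| ^ 2 < ε ^ 2 := pow_lt_pow_left₀ h (abs_nonneg _) two_ne_zero
    rw [sq_abs] at this; linarith
  have hl0 : 0 < l := Real.sqrt_pos.2 h0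
  have hl2 : l ^ 2 = ε ^ 2 - a ^ 2 := Real.sq_sqrt h0.le
  have h1 : {t : ℝ | ε < ‖(a : ℂ) + t * I‖} = Iio (-l) ∪ Ioi l := by
    ext t
    simp only [mem_ofPred_eq, mem_union, mem_Iio, mem_Ioi]
    rw [lt_norm_iff hε]
    have h2 : ε ^ 2 < a ^ 2 + t ^ 2 ↔ l ^ 2 < t ^ 2 := by rw [hl2]; constructor <;> intro <;> linarith
    rw [h2, sq_lt_sq, abs_of_pos hl0, lt_abs]
    constructor
    · rintro (h | h)
      · right; exact h
      · left; linarith
    · rintro (h | h)
      · right; linarith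
      · left; exact h
  have hint1 : IntegrableOn (ker a) (Iio (-l)) := integrableOn_ker (c := l ^ 2) (by positivity)
    measurableSet_Iio fun t ht => by
      have : t < -l := ht
      nlinarith [sq_nonneg a]
  have hint2 : IntegrableOn (ker a) (Ioi l) := integrableOn_ker (c := l ^ 2) (by positivity)
    measurableSet_Ioi fun t ht => by
      have : l < t := ht
      nlinarith [sq_nonneg a]
  rw [h1, setIntegral_union (by
    rw [Set.disjoint_left]
    intro t ht1 ht2
    have : t < -l := ht1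
    have : l < t := ht2
    linarith) measurableSet_Ioi hint1 hint2, ← integral_Iic_eq_integral_Iio,
    integral_ker_Iic hl0, integral_ker_Ioi hl0]
  have hp : 0 < a ^ 2 + l ^ 2 := by positivity
  have n1 := lin_ne hp
  have n2 : (a : ℂ) + (-l : ℝ) * I ≠ 0 := lin_ne (by rw [neg_sq]; exact hp)
  have e1 : ((a : ℂ) + l * I) * ((a : ℂ) + (-l : ℝ) * I) = (ε : ℂ) ^ 2 := by
    have : ((a ^ 2 + l ^ 2 : ℝ) : ℂ) = ((ε ^ 2 : ℝ) : ℂ) := by rw [hl2]; congr 1; ring
    push_cast at this ⊢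
    rw [← this]
    ring_nf
    rw [I_sq]; ring
  have hε' : (ε : ℂ) ≠ 0 := by exact_mod_cast hε.ne'
  have e3 : ∀ A B : ℂ, A ≠ 0 → B ≠ 0 → I / B + -(I / A) = (I * (A - B)) / (A * B) := by
    intro A B hA hB
    field_simp
    ring
  have e2 : I / ((a : ℂ) + (-l : ℝ) * I) + -(I / ((a : ℂ) + l * I)) =
      (I * (((a : ℂ) + l * I) - ((a : ℂ) + (-l : ℝ) * I))) /
        (((a : ℂ) + l * I) * ((a : ℂ) + (-l : ℝ) * I)) := e3 _ _ n1 n2
  rw [e2, e1]
  push_cast
  field_simp
  ring_nf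
  rw [I_sq]; ring

/-- The integrand in real coordinates. -/
noncomputable def Fi (g : ℝ → ℂ) (x ε : ℝ) (q : ℝ × ℝ) : ℂ :=
  {q : ℝ × ℝ | ε < ‖(q.1 : ℂ) + q.2 * I‖}.indicator (fun q => g (x - q.1) * ker q.1 q.2) q

theorem meas_set (ε : ℝ) : MeasurableSet {q : ℝ × ℝ | ε < ‖(q.1 : ℂ) + q.2 * I‖} := by
  have : Continuous fun q : ℝ × ℝ => ‖(q.1 : ℂ) + q.2 * I‖ := by fun_prop
  exact measurableSet_lt measurable_const this.measurable

theorem integrable_Fi {g : ℝ → ℂ} (hg : Continuous g) (hc : HasCompactSupport g) (x : ℝ)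
    {ε : ℝ} (hε : 0 < ε) : Integrable (Fi g x ε) := by
  have h1 : Integrable (fun q : ℝ × ℝ => ‖g (x - q.1)‖ * ((1 + 1 / ε ^ 2) * (1 + q.2 ^ 2)⁻¹)) := by
    have ha : Integrable fun a : ℝ => ‖g (x - a)‖ :=
      ((hg.integrable_of_hasCompactSupport hc).comp_sub_left x).norm
    exact ha.mul_prod (integrable_inv_one_add_sq.const_mul _)
  refine Integrable.mono' h1 ?_ (Eventually.of_forall fun q => ?_)
  · have hm : Measurable fun q : ℝ × ℝ => g (x - q.1) * ker q.1 q.2 := by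
      have c1 : Continuous fun q : ℝ × ℝ => g (x - q.1) := by fun_prop
      have c2 : Continuous fun q : ℝ × ℝ => (q.1 : ℂ) + q.2 * I := by fun_prop
      unfold ker
      exact c1.measurable.mul (measurable_const.div (c2.measurable.pow_const 2))
    exact (hm.indicator (meas_set ε)).aestronglyMeasurable
  · unfold Fi
    by_cases h : q ∈ {q : ℝ × ℝ | ε < ‖(q.1 : ℂ) + q.2 * I‖}
    · rw [indicator_of_mem h, norm_mul]
      refine mul_le_mul_of_nonneg_left ?_ (norm_nonneg _)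
      refine norm_ker_le (by positivity) ?_
      exact ((lt_norm_iff hε).1 h).le
    · rw [indicator_of_notMem h, norm_zero]
      positivity

theorem integral_Fi {g : ℝ → ℂ} (hg : Continuous g) (hc : HasCompactSupport g) (x : ℝ)
    {ε : ℝ} (hε : 0 < ε) : ∫ q, Fi g x ε q =
      -2 * ∫ s in (-1 : ℝ)..1, g (x - ε * s) * (Real.sqrt (1 - s ^ 2) : ℂ) := by
  have h1 : ∫ q, Fi g x ε q = ∫ a, g (x - a) * KI ε a := by
    have := integral_prod (Fi g x ε) (integrable_Fi hg hc x hε)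
    rw [Measure.volume_eq_prod, this]
    refine integral_congr_ae (Eventually.of_forall fun a => ?_)
    simp only
    unfold KI
    have hm : MeasurableSet {t : ℝ | ε < ‖(a : ℂ) + t * I‖} :=
      measurableSet_lt measurable_const (continuous_lin a).norm.measurable
    rw [← integral_const_mul, ← integral_indicator hm]
    refine integral_congr_ae (Eventually.of_forall fun t => ?_)
    rfl
  have h2 : ∫ a, g (x - a) * KI ε a = ∫ a in Ioo (-ε) ε, g (x - a) *
      ((-(2 / ε ^ 2) * Real.sqrt (ε ^ 2 - a ^ 2) : ℝ) : ℂ) := by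
    rw [← integral_indicator measurableSet_Ioo]
    refine integral_congr_ae ?_
    have hae : ∀ᵐ a : ℝ, a ∉ ({ε, -ε} : Set ℝ) := by
      have : volume ({ε, -ε} : Set ℝ) = 0 := Set.Finite.measure_zero (by simp) _
      exact measure_eq_zero_iff_ae_notMem.1 this
    filter_upwards [hae] with a ha
    by_cases h : |a| < ε
    · rw [indicator_of_mem (by rw [mem_Ioo]; exact abs_lt.1 h), KI_in hε h]
    · rw [indicator_of_notMem (s := Ioo (-ε) ε) (fun h3 => h (abs_lt.2 h3)), KI_out hε, mul_zero]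
      rcases (not_lt.1 h).lt_or_eq with h3 | h3
      · exact h3
      · exfalso
        apply ha
        rcases abs_choice a with h4 | h4
        · left; rw [h3, h4]
        · right
          rw [mem_singleton_iff]
          linarith
  rw [h1, h2, ← integral_Ioc_eq_integral_Ioo, ← intervalIntegral.integral_of_le (by linarith)]
  have h3 := intervalIntegral.integral_comp_mul_left (a := -1) (b := 1)
    (fun a : ℝ => g (x - a) * ((-(2 / ε ^ 2) * Real.sqrt (ε ^ 2 - a ^ 2) : ℝ) : ℂ)) hε.ne'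
  simp only [mul_neg, mul_one] at h3
  have h4 : (∫ a in (-ε)..ε, g (x - a) * ((-(2 / ε ^ 2) * Real.sqrt (ε ^ 2 - a ^ 2) : ℝ) : ℂ)) =
      (ε : ℂ) * ∫ s in (-1 : ℝ)..1, g (x - ε * s) *
        ((-(2 / ε ^ 2) * Real.sqrt (ε ^ 2 - (ε * s) ^ 2) : ℝ) : ℂ) := by
    rw [h3, Complex.real_smul, Complex.ofReal_inv, ← mul_assoc,
      mul_inv_cancel₀ (by exact_mod_cast hε.ne'), one_mul]
  rw [h4, ← intervalIntegral.integral_const_mul, ← intervalIntegral.integral_const_mul]
  refine intervalIntegral.integral_congr fun s _ => ?_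
  have h5 : Real.sqrt (ε ^ 2 - (ε * s) ^ 2) = ε * Real.sqrt (1 - s ^ 2) := by
    have : ε ^ 2 - (ε * s) ^ 2 = ε ^ 2 * (1 - s ^ 2) := by ring
    rw [this, Real.sqrt_mul (by positivity), Real.sqrt_sq hε.le]
  rw [h5]
  push_cast
  have hε' : (ε : ℂ) ≠ 0 := by exact_mod_cast hε.ne'
  field_simp

theorem tendsto_avg {g : ℝ → ℂ} (hg : Continuous g) (x : ℝ) :
    Tendsto (fun ε : ℝ => ∫ s in (-1 : ℝ)..1, g (x - ε * s) * (Real.sqrt (1 - s ^ 2) : ℂ))
      (𝓝 0) (𝓝 (g x * (Real.pi / 2 : ℂ))) := by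
  have h1 : Continuous fun ε : ℝ => ∫ s in (-1 : ℝ)..1, g (x - ε * s) *
      (Real.sqrt (1 - s ^ 2) : ℂ) := by
    apply intervalIntegral.continuous_parametric_intervalIntegral_of_continuous'
    fun_prop
  have h2 := h1.tendsto 0
  simp only [zero_mul, sub_zero] at h2
  rw [intervalIntegral.integral_const_mul, intervalIntegral.integral_ofReal,
    integral_sqrt_one_sub_sq] at h2
  push_cast at h2
  exact h2

end Pool.Agent.H751R3.Beu
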