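import Mathlib

set_option autoImplicit false

/-! The power weight `|z|^(-3/2)` in the plane. -/

namespace Pool.Agent.H751R3.Beu

open MeasureTheory Filter Topology Set Complex

/-- The closed square with corners `a`, `a + b`, `a + b + i b`, `a + i b`. -/
def sq (a b : ℂ) : Set ℂ :=
  (fun z => a + b * z) '' {z : ℂ | 0 ≤ z.re ∧ z.re ≤ 1 ∧ 0 ≤ z.im ∧ z.im ≤ 1}

/-- the unit square -/
def usq : Set ℂ := {z : ℂ | 0 ≤ z.re ∧ z.re ≤ 1 ∧ 0 ≤ z.im ∧ z.im ≤ 1}

theorem usq_eq : usq = Complex.measurableEquivRealProd ⁻¹'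
    (Icc (0 : ℝ) 1 ×ˢ Icc (0 : ℝ) 1) := by
  ext z
  simp only [usq, mem_ofPred_eq, mem_preimage, mem_prod, mem_Icc,
    Complex.measurableEquivRealProd_apply]
  tauto

theorem compact_usq : IsCompact usq := by
  have : usq = Complex.equivRealProdCLM.toHomeomorph ⁻¹' (Icc (0 : ℝ) 1 ×ˢ Icc (0 : ℝ) 1) := by
    rw [usq_eq]; rfl
  rw [this, Homeomorph.isCompact_preimage]
  exact isCompact_Icc.prod isCompact_Icc

theorem meas_sq (a b : ℂ) : MeasurableSet (sq a b) := by
  have : IsCompact (sq a b) := compact_usq.image (by fun_prop)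
  exact this.measurableSet

theorem vol_usq : volume usq = 1 := by
  rw [usq_eq, Complex.volume_preserving_equiv_real_prod.measure_preimage
    (measurableSet_Icc.prod measurableSet_Icc).nullMeasurableSet, Measure.volume_eq_prod,
    Measure.prod_prod, Real.volume_Icc]
  simp

theorem vol_sq (a b : ℂ) : volume (sq a b) = ENNReal.ofReal (‖b‖ ^ 2) := by
  have h1 : sq a b = (fun z => a + z) '' ((Algebra.lmul ℝ ℂ b : ℂ →ₗ[ℝ] ℂ) '' usq) := by
    unfold sq usq
    rw [image_image]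
    rfl
  rw [h1, image_add_left, measure_preimage_add, Measure.addHaar_image_linearMap, vol_usq,
    mul_one, ← Algebra.norm_apply, Algebra.norm_complex_apply, Complex.normSq_eq_norm_sq,
    abs_of_nonneg (by positivity)]

theorem norm_sub_le_of_mem {a b z : ℂ} (h : z ∈ sq a b) : ‖z - a‖ ≤ 2 * ‖b‖ := by
  obtain ⟨u, ⟨h1, h2, h3, h4⟩, rfl⟩ := h
  have h5 : ‖u‖ ≤ 2 := by
    refine (Complex.norm_le_abs_re_add_abs_im _).trans ?_
    rw [abs_of_nonneg h1, abs_of_nonneg h3]
    linarith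
  simp only [add_sub_cancel_left, norm_mul]
  nlinarith [norm_nonneg b]

/-- the weight -/
noncomputable def ww (z : ℂ) : ℝ := ‖z‖ ^ (-(3 / 2) : ℝ)

theorem measurable_ww : Measurable ww := measurable_norm.pow_const _

theorem ww_nonneg (z : ℂ) : 0 ≤ ww z := Real.rpow_nonneg (norm_nonneg _) _

theorem locInt_ww : LocallyIntegrable ww := by
  refine locallyIntegrable_of_norm_le_rpow (C := 1) (α := 3 / 2) ?_ ?_ ?_
    measurable_ww.aestronglyMeasurable
  · rw [Complex.finrank_real_complex]; norm_num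
  · rw [Complex.finrank_real_complex]; norm_num
  · refine Eventually.of_forall fun z => ?_
    rw [Real.norm_eq_abs, abs_of_nonneg (ww_nonneg z), one_mul]
    exact le_rfl

theorem ww_pos : ∀ᵐ z : ℂ, 0 < ww z := by
  have : ∀ᵐ z : ℂ, z ≠ 0 := by
    have h : volume ({0} : Set ℂ) = 0 := by simp
    exact measure_eq_zero_iff_ae_notMem.1 h
  filter_upwards [this] with z hz
  exact Real.rpow_pos_of_pos (norm_pos_iff.2 hz) _

theorem intOn_ball (R : ℝ) : IntegrableOn ww (Metric.ball 0 R) := by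
  have h := locInt_ww.integrableOn_isCompact (isCompact_closedBall (0 : ℂ) R)
  exact h.mono_set Metric.ball_subset_closedBall

/-- the integral over the unit ball -/
noncomputable def c1 : ℝ := ∫ z in Metric.ball (0 : ℂ) 1, ww z

theorem c1_nonneg : 0 ≤ c1 := integral_nonneg fun z => ww_nonneg z

theorem integral_ball {R : ℝ} (hR : 0 < R) :
    ∫ z in Metric.ball (0 : ℂ) R, ww z = c1 * R ^ ((1 : ℝ) / 2) := by
  have h1 := Measure.integral_comp_smul volume
    (fun z : ℂ => (Metric.ball (0 : ℂ) R).indicator ww z) R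
  rw [Complex.finrank_real_complex, integral_indicator Metric.isOpen_ball.measurableSet] at h1
  have h2 : (fun z : ℂ => (Metric.ball (0 : ℂ) R).indicator ww (R • z)) =
      fun z => R ^ (-(3 / 2) : ℝ) * (Metric.ball (0 : ℂ) 1).indicator ww z := by
    funext z
    have h3 : R • z ∈ Metric.ball (0 : ℂ) R ↔ z ∈ Metric.ball (0 : ℂ) 1 := by
      simp only [mem_ball_zero_iff, norm_smul, Real.norm_eq_abs, abs_of_pos hR]
      constructor
      · intro h; nlinarith
      · intro h; nlinarith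
    by_cases h : z ∈ Metric.ball (0 : ℂ) 1
    · rw [indicator_of_mem h, indicator_of_mem (h3.2 h)]
      unfold ww
      rw [norm_smul, Real.norm_eq_abs, abs_of_pos hR, Real.mul_rpow hR.le (norm_nonneg _)]
    · rw [indicator_of_notMem h, indicator_of_notMem (fun h4 => h (h3.1 h4)), mul_zero]
  rw [h2, integral_const_mul, integral_indicator Metric.isOpen_ball.measurableSet] at h1
  change R ^ (-(3 / 2) : ℝ) * c1 = _ at h1
  have h4 : |(R ^ 2)⁻¹| = (R ^ 2)⁻¹ := abs_of_pos (by positivity)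
  rw [h4, smul_eq_mul] at h1
  have h5 : ∫ z in Metric.ball (0 : ℂ) R, ww z = R ^ 2 * (R ^ (-(3 / 2) : ℝ) * c1) := by
    rw [h1]; field_simp
  rw [h5, ← Real.rpow_natCast R 2, ← mul_assoc, ← Real.rpow_add hR, mul_comm]
  congr 2
  norm_num

theorem lintegral_ball {R : ℝ} (hR : 0 < R) :
    ∫⁻ z in Metric.ball (0 : ℂ) R, ENNReal.ofReal (ww z) =
      ENNReal.ofReal (c1 * R ^ ((1 : ℝ) / 2)) := by
  rw [← integral_ball hR, ofReal_integral_eq_lintegral_ofReal (intOn_ball R)
    (Eventually.of_forall ww_nonneg)]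

theorem avg_le (a b : ℂ) {g : ℂ → ENNReal} {c : ℝ}
    (hg : ∀ z ∈ sq a b, g z ≤ ENNReal.ofReal c) :
    (∫⁻ z in sq a b, g z) / volume (sq a b) ≤ ENNReal.ofReal c := by
  refine ENNReal.div_le_of_le_mul ?_
  calc ∫⁻ z in sq a b, g z ≤ ∫⁻ _ in sq a b, ENNReal.ofReal c :=
        setLIntegral_mono' (meas_sq a b) hg
    _ = ENNReal.ofReal c * volume (sq a b) := by
        rw [setLIntegral_const]

theorem ww_Ap {p : ℝ} (hp : 1 < p) (a b : ℂ) (hb : b ≠ 0) :
    ((∫⁻ z in sq a b, ENNReal.ofReal (ww z)) / volume (sq a b)) *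
      ((∫⁻ z in sq a b, ENNReal.ofReal (ww z ^ (-1 / (p - 1)))) / volume (sq a b)) ^
        (p - 1) ≤ ENNReal.ofReal (8 + 36 * c1) := by
  have hp1 : 0 < p - 1 := by linarith
  obtain ⟨r, hr'⟩ : ∃ r : ℝ, r = ‖b‖ := ⟨_, rfl⟩
  have hr : 0 < r := by rw [hr']; exact norm_pos_iff.2 hb
  have hw' : ∀ z : ℂ, ww z ^ (-1 / (p - 1)) = ‖z‖ ^ ((3 / 2) / (p - 1)) := by
    intro z
    unfold ww
    rw [← Real.rpow_mul (norm_nonneg _)]
    congr 1
    field_simp
  have hβ : 0 ≤ (3 / 2) / (p - 1) := by positivity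
  have hcomb : ∀ {A B X Y : ℝ}, 0 ≤ A → 0 ≤ B → 
      (∫⁻ z in sq a b, ENNReal.ofReal (ww z)) / volume (sq a b) ≤ ENNReal.ofReal A →
      (∫⁻ z in sq a b, ENNReal.ofReal (ww z ^ (-1 / (p - 1)))) / volume (sq a b) ≤
        ENNReal.ofReal (B ^ ((3 / 2) / (p - 1))) →
      A * B ^ ((3 : ℝ) / 2) ≤ 8 + 36 * c1 →
      ((∫⁻ z in sq a b, ENNReal.ofReal (ww z)) / volume (sq a b)) *
      ((∫⁻ z in sq a b, ENNReal.ofReal (ww z ^ (-1 / (p - 1)))) / volume (sq a b)) ^
        (p - 1) ≤ ENNReal.ofReal (8 + 36 * c1) := by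
    intro A B _ _ hA hB h1 h2 h3
    refine (mul_le_mul' h1 (ENNReal.rpow_le_rpow h2 hp1.le)).trans ?_
    rw [ENNReal.ofReal_rpow_of_nonneg (Real.rpow_nonneg hB _) hp1.le, ← Real.rpow_mul hB,
      div_mul_cancel₀ _ hp1.ne', ← ENNReal.ofReal_mul hA]
    exact ENNReal.ofReal_le_ofReal h3
  have hc := c1_nonneg
  rcases le_or_gt (4 * r) ‖a‖ with h | h
  · -- far from the origin
    have ha : 0 < ‖a‖ := by linarith
    have hz : ∀ z ∈ sq a b, ‖a‖ / 2 ≤ ‖z‖ ∧ ‖z‖ ≤ 2 * ‖a‖ := by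
      intro z hz
      have h1 := norm_sub_le_of_mem hz
      rw [← hr'] at h1
      have h2 : ‖a‖ ≤ ‖z‖ + ‖z - a‖ := by
        have := norm_sub_le z (z - a)
        rwa [sub_sub_cancel] at this
      have h3 : ‖z‖ ≤ ‖z - a‖ + ‖a‖ := by
        have := norm_add_le (z - a) a
        rwa [sub_add_cancel] at this
      constructor <;> linarith
    refine hcomb (A := (‖a‖ / 2) ^ (-(3 / 2) : ℝ)) (B := 2 * ‖a‖) (X := 0) (Y := 0)
      (by positivity) (by positivity) ?_ ?_ ?_
    · refine avg_le a b fun z h4 => ENNReal.ofReal_le_ofReal ?_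
      exact Real.rpow_le_rpow_of_nonpos (by positivity) (hz z h4).1 (by norm_num)
    · refine avg_le a b fun z h4 => ENNReal.ofReal_le_ofReal ?_
      rw [hw']
      exact Real.rpow_le_rpow (norm_nonneg _) (hz z h4).2 hβ
    · have h5 : (2 * ‖a‖) ^ ((3 : ℝ) / 2) = (4 : ℝ) ^ ((3 : ℝ) / 2) * (‖a‖ / 2) ^ ((3 : ℝ) / 2) := by
        rw [← Real.mul_rpow (by norm_num) (by positivity)]
        congr 1; ring
      have h6 : (4 : ℝ) ^ ((3 : ℝ) / 2) = 8 := by
        have : (4 : ℝ) = 2 ^ (2 : ℝ) := by norm_num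
        rw [this, ← Real.rpow_mul (by norm_num)]
        norm_num
      have h7 : (‖a‖ / 2) ^ (-(3 / 2) : ℝ) * (‖a‖ / 2) ^ ((3 : ℝ) / 2) = 1 := by
        rw [← Real.rpow_add (by positivity)]
        norm_num
      rw [h5, h6]
      calc (‖a‖ / 2) ^ (-(3 / 2) : ℝ) * (8 * (‖a‖ / 2) ^ ((3 : ℝ) / 2)) =
            8 * ((‖a‖ / 2) ^ (-(3 / 2) : ℝ) * (‖a‖ / 2) ^ ((3 : ℝ) / 2)) := by ring
        _ ≤ _ := by rw [h7]; linarith
  · -- close to the origin
    have hz : ∀ z ∈ sq a b, ‖z‖ < 6 * r := by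
      intro z hz
      have h1 := norm_sub_le_of_mem hz
      rw [← hr'] at h1
      have h3 : ‖z‖ ≤ ‖z - a‖ + ‖a‖ := by
        have := norm_add_le (z - a) a
        rwa [sub_add_cancel] at this
      linarith
    refine hcomb (A := c1 * (6 * r) ^ ((1 : ℝ) / 2) / r ^ 2) (B := 6 * r) (X := 0) (Y := 0)
      (by positivity) (by positivity) ?_ ?_ ?_
    · rw [vol_sq, ← hr', ENNReal.ofReal_div_of_pos (by positivity),
        ← lintegral_ball (by positivity)]
      refine ENNReal.div_le_div_right (lintegral_mono_set fun z h4 => ?_) _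
      rw [mem_ball_zero_iff]
      exact hz z h4
    · refine avg_le a b fun z h4 => ENNReal.ofReal_le_ofReal ?_
      rw [hw']
      exact Real.rpow_le_rpow (norm_nonneg _) (hz z h4).le hβ
    · have h5 : (6 * r) ^ ((1 : ℝ) / 2) * (6 * r) ^ ((3 : ℝ) / 2) = 36 * r ^ 2 := by
        rw [← Real.rpow_add (by positivity)]
        norm_num
        ring
      have h6 : c1 * (6 * r) ^ ((1 : ℝ) / 2) / r ^ 2 * (6 * r) ^ ((3 : ℝ) / 2) =
          c1 * ((6 * r) ^ ((1 : ℝ) / 2) * (6 * r) ^ ((3 : ℝ) / 2)) / r ^ 2 := by ring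
      rw [h6, h5]
      have : c1 * (36 * r ^ 2) / r ^ 2 = 36 * c1 := by field_simp
      rw [this]; linarith

/-! ### The strip has finite mass -/

/-- the strip -/
def strip : Set ℂ := {z | |z.re| ≤ 2}

theorem meas_strip : MeasurableSet strip :=
  measurableSet_le (Complex.continuous_re.abs.measurable) measurable_const

theorem intOn_strip : IntegrableOn ww strip := by
  have hF : Integrable (fun z : ℂ => (Icc (-2 : ℝ) 2).indicator (fun _ => (1 : ℝ)) z.re *
      (1 + ‖z.im‖) ^ (-(3 / 2) : ℝ)) := by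
    have h1 : Integrable (fun q : ℝ × ℝ => (Icc (-2 : ℝ) 2).indicator (fun _ => (1 : ℝ)) q.1 *
        (1 + ‖q.2‖) ^ (-(3 / 2) : ℝ)) := by
      have ha : Integrable ((Icc (-2 : ℝ) 2).indicator (fun _ => (1 : ℝ))) :=
        (integrableOn_const (by simp)).integrable_indicator measurableSet_Icc
      have hb : Integrable fun y : ℝ => (1 + ‖y‖) ^ (-(3 / 2) : ℝ) := by
        apply integrable_one_add_norm
        rw [Module.finrank_self]; norm_num
      exact ha.mul_prod hb
    exact (Complex.volume_preserving_equiv_real_prod.integrable_comp_emb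
      Complex.measurableEquivRealProd.measurableEmbedding).2 h1
  have h2 : IntegrableOn ww (strip \ Metric.ball 0 1) := by
    refine Integrable.mono' ((hF.const_mul ((2 : ℝ) ^ ((3 : ℝ) / 2))).integrableOn
      (s := strip \ Metric.ball 0 1)) measurable_ww.aestronglyMeasurable ?_
    rw [ae_restrict_iff' (meas_strip.diff Metric.isOpen_ball.measurableSet)]
    refine Eventually.of_forall fun z hz => ?_
    obtain ⟨hz1, hz2⟩ := hz
    have hz3 : 1 ≤ ‖z‖ := by
      rw [mem_ball_zero_iff, not_lt] at hz2; exact hz2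
    have hz4 : z.re ∈ Icc (-2 : ℝ) 2 := by
      rw [mem_Icc]; exact abs_le.1 hz1
    rw [indicator_of_mem hz4, one_mul, Real.norm_eq_abs, abs_of_nonneg (ww_nonneg z)]
    have h3 : 1 + ‖z.im‖ ≤ 2 * ‖z‖ := by
      have := Complex.abs_im_le_norm z
      rw [Real.norm_eq_abs]; linarith
    have h4 : (2 * ‖z‖) ^ (-(3 / 2) : ℝ) ≤ (1 + ‖z.im‖) ^ (-(3 / 2) : ℝ) :=
      Real.rpow_le_rpow_of_nonpos (by positivity) h3 (by norm_num)
    have h5 : ww z = (2 : ℝ) ^ ((3 : ℝ) / 2) * (2 * ‖z‖) ^ (-(3 / 2) : ℝ) := by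
      unfold ww
      rw [Real.mul_rpow (by norm_num) (norm_nonneg _), ← mul_assoc,
        ← Real.rpow_add (by norm_num)]
      norm_num
    rw [h5]
    exact mul_le_mul_of_nonneg_left h4 (by positivity)
  refine ((intOn_ball 1).union h2).mono_set fun z hz => ?_
  by_cases h : z ∈ Metric.ball (0 : ℂ) 1
  · left; exact h
  · right; exact ⟨hz, h⟩

/-- the measure `w dA` -/
noncomputable def wm (w : ℂ → ℝ) : Measure ℂ := volume.withDensity fun z => ENNReal.ofReal (w z)

theorem wm_strip : wm ww strip < ⊤ := by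
  unfold wm
  rw [withDensity_apply _ meas_strip]
  have h := intOn_strip.2
  rw [hasFiniteIntegral_iff_ofReal (Eventually.of_forall ww_nonneg)] at h
  exact h

end Pool.Agent.H751R3.Beu
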