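import Mathlib
import Pool.Agent.H751R3.Beu.PV
import Pool.Agent.H751R3.Beu.Weight

set_option autoImplicit false

/-! The principal value in the plane, and the function in `L^p(w)`. -/

namespace Pool.Agent.H751R3.Beu

open MeasureTheory Filter Topology Set Complex

theorem indicator_eq_Fi (g : ℝ → ℂ) (z : ℂ) (ε : ℝ) (q : ℝ × ℝ) :
    {u : ℂ | ε < ‖u‖}.indicator (fun u => g ((z - u).re) / u ^ 2)
      (Complex.measurableEquivRealProd.symm q) = Fi g z.re ε q := by
  have h1 : Complex.measurableEquivRealProd.symm q = (q.1 : ℂ) + q.2 * I := by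
    apply Complex.ext <;> simp [Complex.measurableEquivRealProd, Complex.equivRealProd]
  unfold Fi
  by_cases h : ε < ‖(q.1 : ℂ) + q.2 * I‖
  · rw [indicator_of_mem (s := {q : ℝ × ℝ | ε < ‖(q.1 : ℂ) + q.2 * I‖}) h,
      indicator_of_mem (by rw [h1]; exact h), h1]
    unfold ker
    have : (z - ((q.1 : ℂ) + q.2 * I)).re = z.re - q.1 := by simp
    rw [this]
    ring
  · rw [indicator_of_notMem (s := {q : ℝ × ℝ | ε < ‖(q.1 : ℂ) + q.2 * I‖}) h,
      indicator_of_notMem (by rw [h1]; exact h)]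

theorem meas_out (z : ℂ) (ε : ℝ) : MeasurableSet {ζ : ℂ | ε < ‖z - ζ‖} :=
  measurableSet_lt measurable_const (by fun_prop : Continuous fun ζ : ℂ => ‖z - ζ‖).measurable

theorem ind_shift (g : ℝ → ℂ) (z : ℂ) (ε : ℝ) :
    {ζ : ℂ | ε < ‖z - ζ‖}.indicator (fun ζ => g ζ.re / (z - ζ) ^ 2) =
      fun ζ => {u : ℂ | ε < ‖u‖}.indicator (fun u => g ((z - u).re) / u ^ 2) (z - ζ) := by
  funext ζ
  by_cases h : ε < ‖z - ζ‖
  · rw [indicator_of_mem (s := {ζ : ℂ | ε < ‖z - ζ‖}) h,
      indicator_of_mem (s := {u : ℂ | ε < ‖u‖}) h, sub_sub_cancel]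
  · rw [indicator_of_notMem (s := {ζ : ℂ | ε < ‖z - ζ‖}) h,
      indicator_of_notMem (s := {u : ℂ | ε < ‖u‖}) h]

theorem int_trunc {g : ℝ → ℂ} (hg : Continuous g) (hc : HasCompactSupport g) (z : ℂ) {ε : ℝ}
    (hε : 0 < ε) : IntegrableOn (fun ζ : ℂ => g ζ.re / (z - ζ) ^ 2) {ζ : ℂ | ε < ‖z - ζ‖} := by
  rw [← integrable_indicator_iff (meas_out z ε), ind_shift]
  apply Integrable.comp_sub_left (f := {u : ℂ | ε < ‖u‖}.indicator
    (fun u => g ((z - u).re) / u ^ 2))
  rw [← (Complex.volume_preserving_equiv_real_prod.symm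
    Complex.measurableEquivRealProd).integrable_comp_emb
    Complex.measurableEquivRealProd.symm.measurableEmbedding]
  refine (integrable_Fi hg hc z.re hε).congr (Eventually.of_forall fun q => ?_)
  exact (indicator_eq_Fi g z ε q).symm

theorem integral_trunc {g : ℝ → ℂ} (hg : Continuous g) (hc : HasCompactSupport g) (z : ℂ) {ε : ℝ}
    (hε : 0 < ε) : ∫ ζ in {ζ : ℂ | ε < ‖z - ζ‖}, g ζ.re / (z - ζ) ^ 2 =
      -2 * ∫ s in (-1 : ℝ)..1, g (z.re - ε * s) * (Real.sqrt (1 - s ^ 2) : ℂ) := by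
  rw [← integral_Fi hg hc z.re hε, ← integral_indicator (meas_out z ε), ind_shift,
    integral_sub_left_eq_self (fun u : ℂ => {u : ℂ | ε < ‖u‖}.indicator
      (fun u => g ((z - u).re) / u ^ 2) u) volume z,
    ← (Complex.volume_preserving_equiv_real_prod.symm
      Complex.measurableEquivRealProd).integral_comp
      Complex.measurableEquivRealProd.symm.measurableEmbedding]
  exact integral_congr_ae (Eventually.of_forall fun q => indicator_eq_Fi g z ε q)

theorem pv {g : ℝ → ℂ} (hg : Continuous g) (hc : HasCompactSupport g) (z : ℂ) :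
    Tendsto (fun ε : ℝ => -(1 / (Real.pi : ℂ)) *
      ∫ ζ in {ζ : ℂ | ε < ‖z - ζ‖}, g ζ.re / (z - ζ) ^ 2) (𝓝[>] 0) (𝓝 (g z.re)) := by
  have h1 := ((tendsto_avg hg z.re).mono_left (nhdsWithin_le_nhds (s := Ioi (0 : ℝ)))).const_mul
    (-(1 / (Real.pi : ℂ)) * -2)
  have h2 : -(1 / (Real.pi : ℂ)) * -2 * (g z.re * (Real.pi / 2 : ℂ)) = g z.re := by
    have : (Real.pi : ℂ) ≠ 0 := by exact_mod_cast Real.pi_ne_zero
    field_simp
  rw [h2] at h1
  refine h1.congr' ?_
  filter_upwards [self_mem_nhdsWithin] with ε hε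
  rw [integral_trunc hg hc z hε]
  ring

/-- a smooth bump on the line -/
noncomputable def bm : ContDiffBump (0 : ℝ) := ⟨1, 2, one_pos, one_lt_two⟩

/-- the bump as a plain function -/
noncomputable def bf (x : ℝ) : ℝ := bm x

/-- its derivative -/
noncomputable def bd (x : ℝ) : ℝ := deriv bf x

/-- its derivative, complex valued -/
noncomputable def g0 (x : ℝ) : ℂ := (bd x : ℂ)

theorem bm_smooth : ContDiff ℝ ((⊤ : ℕ∞) : WithTop ℕ∞) bf := bm.contDiff

theorem bm_deriv_cont : Continuous bd :=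
  bm_smooth.continuous_deriv (by exact_mod_cast le_top)

theorem bm_hasDeriv (x : ℝ) : HasDerivAt bf (bd x) x :=
  ((bm_smooth.differentiable (by simp)) x).hasDerivAt

theorem bm_zero {x : ℝ} (h : 2 ≤ |x|) : bf x = 0 := by
  apply bm.zero_of_le_dist
  rw [Real.dist_eq, sub_zero]; exact h

theorem bm_one {x : ℝ} (h : |x| ≤ 1) : bf x = 1 := by
  apply bm.one_of_mem_closedBall
  rw [Metric.mem_closedBall, Real.dist_eq, sub_zero]; exact h

theorem bm_compact : HasCompactSupport bf := bm.hasCompactSupport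

theorem deriv_compact : HasCompactSupport bd := bm_compact.deriv

theorem deriv_zero {x : ℝ} (h : 2 < |x|) : bd x = 0 := by
  have h1 : bf =ᶠ[𝓝 x] fun _ => 0 := by
    have : {y : ℝ | 2 < |y|} ∈ 𝓝 x := (isOpen_lt continuous_const continuous_abs).mem_nhds h
    filter_upwards [this] with y hy
    exact bm_zero (le_of_lt hy)
  unfold bd
  rw [h1.deriv_eq, deriv_const]

theorem g0_cont : Continuous g0 := Complex.continuous_ofReal.comp bm_deriv_cont

theorem g0_compact : HasCompactSupport g0 :=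
  deriv_compact.comp_left (g := fun r : ℝ => (r : ℂ)) Complex.ofReal_zero

theorem bm_deriv_bdd : ∃ C : ℝ, 0 ≤ C ∧ ∀ x, |bd x| ≤ C := by
  obtain ⟨C, hC⟩ := deriv_compact.exists_bound_of_continuous bm_deriv_cont
  exact ⟨C, (norm_nonneg _).trans (hC 0), fun x => hC x⟩

theorem g0_ne : ∃ x, g0 x ≠ 0 := by
  by_contra h
  push Not at h
  have h1 : ∀ x, bd x = 0 := fun x => by
    have := h x
    unfold g0 at this
    exact_mod_cast this
  have h2 := is_const_of_deriv_eq_zero (bm_smooth.differentiable (by simp)) h1 0 2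
  rw [bm_one (by simp), bm_zero (by rw [abs_of_pos] <;> norm_num)] at h2
  exact one_ne_zero h2

/-- the eigenfunction -/
noncomputable def ef (z : ℂ) : ℂ := g0 z.re

theorem ef_cont : Continuous ef := g0_cont.comp Complex.continuous_re

theorem memLp_of_strip {h : ℂ → ℂ} (hm : Measurable h) {C : ℝ} (hC : ∀ z, ‖h z‖ ≤ C)
    (h0 : ∀ z, z ∉ strip → h z = 0) (q : ENNReal) : MemLp h q (wm ww) := by
  have h1 : h = strip.indicator h := by
    funext z
    by_cases hz : z ∈ strip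
    · rw [indicator_of_mem hz]
    · rw [indicator_of_notMem hz, h0 z hz]
  rw [h1, memLp_indicator_iff_restrict meas_strip]
  haveI : IsFiniteMeasure ((wm ww).restrict strip) :=
    ⟨by rw [Measure.restrict_apply_univ]; exact wm_strip⟩
  exact MemLp.of_bound hm.aestronglyMeasurable C (Eventually.of_forall hC)

theorem ef_strip {z : ℂ} (hz : z ∉ strip) : ef z = 0 := by
  have : 2 < |z.re| := by
    simp only [strip, mem_ofPred_eq, not_le] at hz; exact hz
  unfold ef g0
  rw [deriv_zero this, Complex.ofReal_zero]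

theorem ef_memLp (q : ENNReal) : MemLp ef q (wm ww) := by
  obtain ⟨C, _, hC⟩ := bm_deriv_bdd
  refine memLp_of_strip ef_cont.measurable (C := C) (fun z => ?_) (fun z => ef_strip) q
  unfold ef g0
  rw [Complex.norm_real]
  exact hC _

theorem ef_ne : ¬ ef =ᵐ[wm ww] 0 := by
  intro h
  have h1 : ef =ᵐ[volume] 0 := by
    have h2 : ∀ᵐ z ∂(wm ww), ef z = 0 := h
    unfold wm at h2
    rw [ae_withDensity_iff (measurable_ww.ennreal_ofReal)] at h2
    filter_upwards [h2, ww_pos] with z hz hz2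
    exact hz (by simpa using hz2)
  have h3 := (Continuous.ae_eq_iff_eq volume ef_cont continuous_zero).1 h1
  obtain ⟨x, hx⟩ := g0_ne
  apply hx
  have := congrFun h3 (x : ℂ)
  unfold ef at this
  simpa using this

/-! ### The test functions -/

/-- `∂φ/∂z̄` -/
noncomputable def dbar (φ : ℂ → ℂ) (z : ℂ) : ℂ := (fderiv ℝ φ z 1 + I * fderiv ℝ φ z I) / 2

/-- `∂φ/∂z` -/
noncomputable def dz (φ : ℂ → ℂ) (z : ℂ) : ℂ := (fderiv ℝ φ z 1 - I * fderiv ℝ φ z I) / 2

/-- the test functions -/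
noncomputable def tf (n : ℕ) (z : ℂ) : ℂ :=
  ((2 * bf z.re * bf (z.im / (n + 1)) : ℝ) : ℂ)

theorem tf_smooth (n : ℕ) : ContDiff ℝ ((⊤ : ℕ∞) : WithTop ℕ∞) (tf n) := by
  have h1 : ContDiff ℝ ((⊤ : ℕ∞) : WithTop ℕ∞) fun z : ℂ => bf z.re :=
    bm_smooth.comp Complex.reCLM.contDiff
  have h2 : ContDiff ℝ ((⊤ : ℕ∞) : WithTop ℕ∞) fun z : ℂ => bf (z.im / (n + 1)) :=
    bm_smooth.comp (Complex.imCLM.contDiff.div_const _)
  exact Complex.ofRealCLM.contDiff.comp ((contDiff_const.mul h1).mul h2)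

theorem tf_compact (n : ℕ) : HasCompactSupport (tf n) := by
  refine HasCompactSupport.intro (K := Complex.equivRealProdCLM.toHomeomorph ⁻¹'
    (Icc (-2 : ℝ) 2 ×ˢ Icc (-(2 * (n + 1)) : ℝ) (2 * (n + 1)))) ?_ ?_
  · rw [Homeomorph.isCompact_preimage]
    exact isCompact_Icc.prod isCompact_Icc
  · intro z hz
    have hn : (0 : ℝ) < n + 1 := by positivity
    have h1 : 2 ≤ |z.re| ∨ 2 ≤ |z.im / (n + 1)| := by
      by_contra h
      push Not at h
      apply hz
      have h3 := abs_lt.1 h.1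
      have h4 : |z.im| < 2 * (n + 1) := by
        have := h.2
        rw [abs_div, abs_of_pos hn, div_lt_iff₀ hn] at this
        exact this
      have h5 := abs_lt.1 h4
      exact ⟨⟨h3.1.le, h3.2.le⟩, ⟨h5.1.le, h5.2.le⟩⟩
    unfold tf
    rcases h1 with h1 | h1
    · rw [bm_zero h1]; simp
    · rw [bm_zero h1]; simp

theorem tf_fderiv (n : ℕ) (z v : ℂ) : fderiv ℝ (tf n) z v =
    ((2 * (bd z.re * v.re) * bf (z.im / (n + 1)) +
      2 * bf z.re * (bd (z.im / (n + 1)) * (v.im / (n + 1))) : ℝ) : ℂ) := by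
  have h1 : HasFDerivAt (fun z : ℂ => bf z.re) (bd z.re • Complex.reCLM) z :=
    (bm_hasDeriv z.re).comp_hasFDerivAt z Complex.reCLM.hasFDerivAt
  have h0 : HasFDerivAt (fun z : ℂ => z.im / (n + 1)) (((n : ℝ) + 1)⁻¹ • Complex.imCLM) z := by
    have := (Complex.imCLM.hasFDerivAt (x := z)).const_mul (((n : ℝ) + 1)⁻¹)
    refine this.congr_of_eventuallyEq (Eventually.of_forall fun w => ?_)
    simp only [Complex.imCLM_apply]
    ring
  have h2 : HasFDerivAt (fun z : ℂ => bf (z.im / (n + 1)))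
      (bd (z.im / (n + 1)) • (((n : ℝ) + 1)⁻¹ • Complex.imCLM)) z :=
    (bm_hasDeriv (z.im / (n + 1))).comp_hasFDerivAt z h0
  have h3 := Complex.ofRealCLM.hasFDerivAt.comp z ((h1.const_mul 2).mul h2)
  have h4 : HasFDerivAt (tf n) _ z := h3
  rw [h4.fderiv]
  simp only [ContinuousLinearMap.comp_apply, Complex.ofRealCLM_apply, add_apply,
    smul_apply, smul_eq_mul, Complex.reCLM_apply, Complex.imCLM_apply]
  congr 1
  ring

theorem dbar_tf (n : ℕ) (z : ℂ) : dbar (tf n) z = g0 z.re * (bf (z.im / (n + 1)) : ℝ) +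
    I * ((bf z.re : ℝ) * (bd (z.im / (n + 1)) : ℝ) / (n + 1)) := by
  unfold dbar g0
  rw [tf_fderiv, tf_fderiv]
  simp only [Complex.one_re, Complex.one_im, Complex.I_re, Complex.I_im]
  push_cast
  ring

theorem dz_tf (n : ℕ) (z : ℂ) : dz (tf n) z = g0 z.re * (bf (z.im / (n + 1)) : ℝ) +
    -I * ((bf z.re : ℝ) * (bd (z.im / (n + 1)) : ℝ) / (n + 1)) := by
  unfold dz g0
  rw [tf_fderiv, tf_fderiv]
  simp only [Complex.one_re, Complex.one_im, Complex.I_re, Complex.I_im]
  push_cast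
  ring

end Pool.Agent.H751R3.Beu
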