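import Mathlib
import Pool.Agent.H751R3.Beu.Fun

set_option autoImplicit false

/-! Convergence of the test functions in `L^p(w)`. -/

namespace Pool.Agent.H751R3.Beu

open MeasureTheory Filter Topology Set Complex

/-- the approximants -/
noncomputable def Dn (c : ℂ) (n : ℕ) (z : ℂ) : ℂ := g0 z.re * (bf (z.im / (n + 1)) : ℝ) +
    c * ((bf z.re : ℝ) * (bd (z.im / (n + 1)) : ℝ) / (n + 1))

theorem bf_cont : Continuous bf := bm_smooth.continuous

theorem bf_nonneg (x : ℝ) : 0 ≤ bf x := bm.nonneg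

theorem bf_le_one (x : ℝ) : bf x ≤ 1 := bm.le_one

theorem Dn_cont (c : ℂ) (n : ℕ) : Continuous (Dn c n) := by
  have h1 : Continuous fun z : ℂ => g0 z.re := ef_cont
  have h2 : Continuous fun z : ℂ => z.im / ((n : ℝ) + 1) := by fun_prop
  have h3 : Continuous fun z : ℂ => ((bf (z.im / ((n : ℝ) + 1)) : ℝ) : ℂ) :=
    Complex.continuous_ofReal.comp (bf_cont.comp h2)
  have h4 : Continuous fun z : ℂ => ((bd (z.im / ((n : ℝ) + 1)) : ℝ) : ℂ) :=
    Complex.continuous_ofReal.comp (bm_deriv_cont.comp h2)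
  have h5 : Continuous fun z : ℂ => ((bf z.re : ℝ) : ℂ) :=
    Complex.continuous_ofReal.comp (bf_cont.comp Complex.continuous_re)
  exact (h1.mul h3).add (continuous_const.mul ((h5.mul h4).div_const _))

theorem Dn_strip (c : ℂ) (n : ℕ) {z : ℂ} (hz : z ∉ strip) : Dn c n z = 0 := by
  have h : 2 < |z.re| := by
    simp only [strip, mem_ofPred_eq, not_le] at hz; exact hz
  unfold Dn g0
  rw [deriv_zero h, bm_zero h.le]
  simp

theorem Dn_bdd {C : ℝ} (hC : ∀ x, |bd x| ≤ C) (hC0 : 0 ≤ C) {c : ℂ} (hc : ‖c‖ ≤ 1) (n : ℕ)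
    (z : ℂ) : ‖Dn c n z‖ ≤ 2 * C := by
  have hn : (1 : ℝ) ≤ n + 1 := by
    have : (0 : ℝ) ≤ n := Nat.cast_nonneg n
    linarith
  have e1 : ‖g0 z.re * (bf (z.im / (n + 1)) : ℝ)‖ ≤ C := by
    unfold g0
    rw [norm_mul, Complex.norm_real, Complex.norm_real, Real.norm_eq_abs, Real.norm_eq_abs,
      abs_of_nonneg (bf_nonneg _)]
    calc |bd z.re| * bf (z.im / (n + 1)) ≤ C * 1 :=
          mul_le_mul (hC _) (bf_le_one _) (bf_nonneg _) hC0
      _ = C := mul_one C
  have e2 : ‖c * (((bf z.re : ℝ) : ℂ) * ((bd (z.im / (n + 1)) : ℝ) : ℂ) / ((n : ℂ) + 1))‖ ≤ C := by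
    have : ((n : ℂ) + 1) = (((n : ℝ) + 1 : ℝ) : ℂ) := by push_cast; ring
    rw [this, norm_mul, norm_div, norm_mul, Complex.norm_real, Complex.norm_real,
      Complex.norm_real, Real.norm_eq_abs, Real.norm_eq_abs, Real.norm_eq_abs,
      abs_of_nonneg (bf_nonneg _), abs_of_pos (by linarith : (0 : ℝ) < n + 1)]
    have h1 : bf z.re * |bd (z.im / (n + 1))| ≤ C := by
      calc bf z.re * |bd (z.im / (n + 1))| ≤ 1 * C :=
            mul_le_mul (bf_le_one _) (hC _) (abs_nonneg _) zero_le_one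
        _ = C := one_mul C
    have h2 : bf z.re * |bd (z.im / (n + 1))| / (n + 1) ≤ C := by
      refine (div_le_self (mul_nonneg (bf_nonneg _) (abs_nonneg _)) hn).trans h1
    calc ‖c‖ * (bf z.re * |bd (z.im / (n + 1))| / (n + 1)) ≤ 1 * C :=
          mul_le_mul hc h2 (by have := bf_nonneg z.re; positivity) zero_le_one
      _ = C := one_mul C
  unfold Dn
  refine (norm_add_le _ _).trans ?_
  linarith

theorem Dn_tendsto (c : ℂ) (z : ℂ) : Tendsto (fun n => Dn c n z) atTop (𝓝 (ef z)) := by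
  have h1 : Tendsto (fun n : ℕ => z.im / ((n : ℝ) + 1)) atTop (𝓝 0) := by
    have := (tendsto_one_div_add_atTop_nhds_zero_nat (𝕜 := ℝ)).const_mul z.im
    rw [mul_zero] at this
    refine this.congr fun n => ?_
    ring
  have h2 : Tendsto (fun n : ℕ => ((bf (z.im / ((n : ℝ) + 1)) : ℝ) : ℂ)) atTop (𝓝 1) := by
    have := ((Complex.continuous_ofReal.comp bf_cont).tendsto 0).comp h1
    simp only [Function.comp_def] at this
    rw [bm_one (x := 0) (by simp)] at this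
    simpa using this
  have h3 : Tendsto (fun n : ℕ => ((bd (z.im / ((n : ℝ) + 1)) : ℝ) : ℂ)) atTop
      (𝓝 ((bd 0 : ℝ) : ℂ)) :=
    ((Complex.continuous_ofReal.comp bm_deriv_cont).tendsto 0).comp h1
  have h4 : Tendsto (fun n : ℕ => (1 : ℂ) / ((n : ℂ) + 1)) atTop (𝓝 0) :=
    tendsto_one_div_add_atTop_nhds_zero_nat (𝕜 := ℂ)
  have h5 := (h2.const_mul (g0 z.re)).add
    (((h3.const_mul ((bf z.re : ℝ) : ℂ)).mul h4).const_mul c)
  rw [mul_one, mul_zero, mul_zero, add_zero] at h5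
  refine h5.congr fun n => ?_
  unfold Dn
  ring

theorem Dn_memLp {c : ℂ} (hc : ‖c‖ ≤ 1) (n : ℕ) (q : ENNReal) : MemLp (Dn c n) q (wm ww) := by
  obtain ⟨C, hC0, hC⟩ := bm_deriv_bdd
  exact memLp_of_strip (Dn_cont c n).measurable (Dn_bdd hC hC0 hc n)
    (fun z hz => Dn_strip c n hz) q

theorem Dn_conv {c : ℂ} (hc : ‖c‖ ≤ 1) {p : ℝ} (hp : 0 < p) :
    Tendsto (fun n => eLpNorm (Dn c n - ef) (ENNReal.ofReal p) (wm ww)) atTop (𝓝 0) := by
  obtain ⟨C, hC0, hC⟩ := bm_deriv_bdd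
  have h1 : ∀ n, eLpNorm (Dn c n - ef) (ENNReal.ofReal p) (wm ww) =
      (∫⁻ z, ‖(Dn c n - ef) z‖ₑ ^ p ∂(wm ww)) ^ (1 / p) := by
    intro n
    rw [eLpNorm_eq_lintegral_rpow_enorm_toReal (by simpa using hp) (by simp),
      ENNReal.toReal_ofReal hp.le]
  simp_rw [h1]
  have h2 : Tendsto (fun n => ∫⁻ z, ‖(Dn c n - ef) z‖ₑ ^ p ∂(wm ww)) atTop
      (𝓝 (∫⁻ _ : ℂ, 0 ∂(wm ww))) := by
    refine tendsto_lintegral_of_dominated_convergence
      (strip.indicator fun _ => ENNReal.ofReal (3 * C) ^ p) (fun n => ?_) (fun n => ?_) ?_ ?_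
    · exact (((Dn_cont c n).sub ef_cont).measurable.enorm).pow_const _
    · refine Eventually.of_forall fun z => ?_
      by_cases hz : z ∈ strip
      · rw [indicator_of_mem hz]
        refine ENNReal.rpow_le_rpow ?_ hp.le
        rw [← ofReal_norm]
        refine ENNReal.ofReal_le_ofReal ?_
        refine (norm_sub_le _ _).trans ?_
        have h3 := Dn_bdd hC hC0 hc n z
        have h4 : ‖ef z‖ ≤ C := by
          unfold ef g0
          rw [Complex.norm_real]
          exact hC _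
        linarith
      · have h3 : (Dn c n - ef) z = 0 := by
          rw [Pi.sub_apply, Dn_strip c n hz, ef_strip hz, sub_zero]
        rw [indicator_of_notMem hz]
        simp only [h3, enorm_zero, ENNReal.zero_rpow_of_pos hp, le_refl]
    · rw [lintegral_indicator meas_strip, setLIntegral_const]
      exact ENNReal.mul_ne_top (ENNReal.rpow_ne_top_of_nonneg hp.le ENNReal.ofReal_ne_top)
        wm_strip.ne
    · refine Eventually.of_forall fun z => ?_
      have h3 : Tendsto (fun n => Dn c n z - ef z) atTop (𝓝 0) := by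
        have := (Dn_tendsto c z).sub_const (ef z)
        rwa [sub_self] at this
      have h4 : Tendsto (fun n => ‖Dn c n z - ef z‖ₑ) atTop (𝓝 0) := by
        have := h3.enorm
        rwa [enorm_zero] at this
      have h5 := h4.ennrpow_const p
      rw [ENNReal.zero_rpow_of_pos hp] at h5
      exact h5
  rw [lintegral_zero] at h2
  have h6 := h2.ennrpow_const (1 / p)
  rwa [ENNReal.zero_rpow_of_pos (by positivity)] at h6

theorem fix {p : ℝ} (hp : 1 < p) (S : (ℂ → ℂ) → ℂ → ℂ)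
    (hmem : ∀ f, MemLp f (ENNReal.ofReal p) (wm ww) → MemLp (S f) (ENNReal.ofReal p) (wm ww))
    (hlin : ∀ f h : ℂ → ℂ, MemLp f (ENNReal.ofReal p) (wm ww) →
      MemLp h (ENNReal.ofReal p) (wm ww) → ∀ c : ℂ,
      S (fun z => c * f z + h z) =ᵐ[wm ww] fun z => c * S f z + S h z)
    {C : ℝ} (hC : ∀ f, MemLp f (ENNReal.ofReal p) (wm ww) →
      eLpNorm (S f) (ENNReal.ofReal p) (wm ww) ≤
        ENNReal.ofReal C * eLpNorm f (ENNReal.ofReal p) (wm ww))
    (hS : ∀ φ : ℂ → ℂ, ContDiff ℝ ((⊤ : ℕ∞) : WithTop ℕ∞) φ → HasCompactSupport φ →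
      S (dbar φ) =ᵐ[wm ww] dz φ) : S ef =ᵐ[wm ww] ef := by
  have hI : ‖(I : ℂ)‖ ≤ 1 := by rw [Complex.norm_I]
  have hI' : ‖(-I : ℂ)‖ ≤ 1 := by rw [norm_neg, Complex.norm_I]
  have hp0 : 0 < p := by linarith
  have hp1 : 1 ≤ ENNReal.ofReal p := by
    rw [ENNReal.one_le_ofReal]; exact hp.le
  have h1 : ∀ n, S (Dn I n) =ᵐ[wm ww] Dn (-I) n := by
    intro n
    have h2 := hS (tf n) (tf_smooth n) (tf_compact n)
    have h3 : dbar (tf n) = Dn I n := by funext z; exact dbar_tf n z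
    have h4 : dz (tf n) = Dn (-I) n := by funext z; exact dz_tf n z
    rwa [h3, h4] at h2
  have hm := ef_memLp (ENNReal.ofReal p)
  have h2 : ∀ n, eLpNorm (S ef - ef) (ENNReal.ofReal p) (wm ww) ≤
      ENNReal.ofReal C * eLpNorm (Dn I n - ef) (ENNReal.ofReal p) (wm ww) +
        eLpNorm (Dn (-I) n - ef) (ENNReal.ofReal p) (wm ww) := by
    intro n
    have hmn := Dn_memLp hI n (ENNReal.ofReal p)
    have hmn' := Dn_memLp hI' n (ENNReal.ofReal p)
    have e1 : S (Dn I n - ef) =ᵐ[wm ww] fun z => Dn (-I) n z - S ef z := by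
      have h3 := hlin ef (Dn I n) hm hmn (-1)
      have h4 : (fun z => -1 * ef z + Dn I n z) = Dn I n - ef := by
        funext z; rw [Pi.sub_apply]; ring
      rw [h4] at h3
      filter_upwards [h3, h1 n] with z hz hz2
      rw [hz, hz2]; ring
    have e2 : S ef - ef =ᵐ[wm ww] (Dn (-I) n - ef) - S (Dn I n - ef) := by
      filter_upwards [e1] with z hz
      simp only [Pi.sub_apply] at hz ⊢
      rw [hz]; ring
    rw [eLpNorm_congr_ae e2]
    refine (eLpNorm_sub_le (hmn'.1.sub hm.1) (hmem _ (hmn.sub hm)).1 hp1).trans ?_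
    rw [add_comm]
    gcongr
    exact hC _ (hmn.sub hm)
  have h3 : Tendsto (fun n => ENNReal.ofReal C * eLpNorm (Dn I n - ef) (ENNReal.ofReal p) (wm ww) +
        eLpNorm (Dn (-I) n - ef) (ENNReal.ofReal p) (wm ww)) atTop (𝓝 0) := by
    have h4 := (ENNReal.Tendsto.const_mul (Dn_conv hI hp0)
      (Or.inr ENNReal.ofReal_ne_top : (0 : ENNReal) ≠ 0 ∨ ENNReal.ofReal C ≠ ⊤)).add
      (Dn_conv hI' hp0)
    rwa [mul_zero, add_zero] at h4
  have h4 : eLpNorm (S ef - ef) (ENNReal.ofReal p) (wm ww) = 0 :=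
    le_antisymm (ge_of_tendsto' h3 h2) bot_le
  rw [eLpNorm_eq_zero_iff ((hmem _ hm).1.sub hm.1) (by simpa using hp0)] at h4
  filter_upwards [h4] with z hz
  simpa [sub_eq_zero] using hz

end Pool.Agent.H751R3.Beu
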